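import Mathlib
import Pool.Agent.Lib_helper23.PG.Defs

/-!
# Half of the multiples: definitions

Invariant means on the integers, twisted averages, Fejer kernels, almost periodic approximants.
-/

set_option autoImplicit false

namespace Pool.Agent.HOM

open scoped BigOperators ComplexConjugate

/-! ### bounded functions -/

/-- `f` is bounded. -/
def Bd {X E : Type*} [NormedAddCommGroup E] (f : X → E) : Prop := ∃ B : ℝ, ∀ x, ‖f x‖ ≤ B

section bd
variable {X Y E : Type*} [NormedAddCommGroup E]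

theorem Bd.of_le {f : X → E} (B : ℝ) (h : ∀ x, ‖f x‖ ≤ B) : Bd f := ⟨B, h⟩

theorem Bd.of_abs_le {f : X → ℝ} (B : ℝ) (h : ∀ x, |f x| ≤ B) : Bd f := ⟨B, fun x => by
  rw [Real.norm_eq_abs]; exact h x⟩

theorem Bd.const (c : E) : Bd (fun _ : X => c) := ⟨‖c‖, fun _ => le_rfl⟩

theorem Bd.add {f g : X → E} (hf : Bd f) (hg : Bd g) : Bd (fun x => f x + g x) := by
  obtain ⟨A, hA⟩ := hf; obtain ⟨B, hB⟩ := hg
  exact ⟨A + B, fun x => (norm_add_le _ _).trans (add_le_add (hA x) (hB x))⟩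

theorem Bd.neg {f : X → E} (hf : Bd f) : Bd (fun x => -f x) := by
  obtain ⟨A, hA⟩ := hf
  exact ⟨A, fun x => by rw [norm_neg]; exact hA x⟩

theorem Bd.sub {f g : X → E} (hf : Bd f) (hg : Bd g) : Bd (fun x => f x - g x) := by
  obtain ⟨A, hA⟩ := hf; obtain ⟨B, hB⟩ := hg
  exact ⟨A + B, fun x => (norm_sub_le _ _).trans (add_le_add (hA x) (hB x))⟩

theorem Bd.norm {f : X → E} (hf : Bd f) : Bd (fun x => ‖f x‖) := by
  obtain ⟨A, hA⟩ := hf
  exact ⟨A, fun x => by rw [norm_norm]; exact hA x⟩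

theorem Bd.abs {f : X → ℝ} (hf : Bd f) : Bd (fun x => |f x|) := by
  obtain ⟨A, hA⟩ := hf
  exact ⟨A, fun x => by simpa using hA x⟩

theorem Bd.mulR {f g : X → ℝ} (hf : Bd f) (hg : Bd g) : Bd (fun x => f x * g x) := by
  obtain ⟨A, hA⟩ := hf; obtain ⟨B, hB⟩ := hg
  refine ⟨|A| * |B|, fun x => ?_⟩
  rw [norm_mul]
  exact mul_le_mul ((hA x).trans (le_abs_self A)) ((hB x).trans (le_abs_self B)) (norm_nonneg _)
    (abs_nonneg _)

theorem Bd.mul {f g : X → ℂ} (hf : Bd f) (hg : Bd g) : Bd (fun x => f x * g x) := by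
  obtain ⟨A, hA⟩ := hf; obtain ⟨B, hB⟩ := hg
  refine ⟨|A| * |B|, fun x => ?_⟩
  rw [norm_mul]
  exact mul_le_mul ((hA x).trans (le_abs_self A)) ((hB x).trans (le_abs_self B)) (norm_nonneg _)
    (abs_nonneg _)

theorem Bd.powR {f : X → ℝ} (hf : Bd f) (n : ℕ) : Bd (fun x => f x ^ n) := by
  obtain ⟨A, hA⟩ := hf
  refine ⟨|A| ^ n, fun x => ?_⟩
  rw [norm_pow]
  exact pow_le_pow_left₀ (norm_nonneg _) ((hA x).trans (le_abs_self A)) n

theorem Bd.comp {f : X → E} (hf : Bd f) (g : Y → X) : Bd (fun y => f (g y)) := by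
  obtain ⟨A, hA⟩ := hf
  exact ⟨A, fun y => hA (g y)⟩

theorem Bd.ofReal {f : X → ℝ} (hf : Bd f) : Bd (fun x => (f x : ℂ)) := by
  obtain ⟨A, hA⟩ := hf
  exact ⟨A, fun x => by rw [Complex.norm_real]; exact hA x⟩

theorem Bd.re {f : X → ℂ} (hf : Bd f) : Bd (fun x => (f x).re) := by
  obtain ⟨A, hA⟩ := hf
  exact ⟨A, fun x => (Complex.abs_re_le_norm _).trans (hA x)⟩

theorem Bd.im {f : X → ℂ} (hf : Bd f) : Bd (fun x => (f x).im) := by
  obtain ⟨A, hA⟩ := hf
  exact ⟨A, fun x => (Complex.abs_im_le_norm _).trans (hA x)⟩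

theorem Bd.conj {f : X → ℂ} (hf : Bd f) : Bd (fun x => conj (f x)) := by
  obtain ⟨A, hA⟩ := hf
  exact ⟨A, fun x => by rw [RCLike.norm_conj]; exact hA x⟩

theorem Bd.sum {ι : Type*} (s : Finset ι) {f : ι → X → E} (hf : ∀ i ∈ s, Bd (f i)) :
    Bd (fun x => ∑ i ∈ s, f i x) := by
  classical
  induction s using Finset.induction_on with
  | empty => exact ⟨0, fun x => by simp⟩
  | insert a s ha ih =>
    have h1 := hf a (Finset.mem_insert_self a s)
    have h2 := ih (fun i hi => hf i (Finset.mem_insert_of_mem hi))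
    have := h1.add h2
    simpa [Finset.sum_insert ha] using this

theorem Bd.of_mem_Icc {f : X → ℝ} {a b : ℝ} (h : ∀ x, a ≤ f x ∧ f x ≤ b) : Bd f :=
  ⟨max |a| |b|, fun x => by
    rw [Real.norm_eq_abs]
    exact abs_le_max_abs_abs (h x).1 (h x).2⟩

end bd

/-! ### means -/

/-- A mean on `X`: a normalised linear functional on all real functions which is nonnegative on
nonnegative bounded functions. (On unbounded functions its values have no meaning.) -/
structure Mn (X : Type*) where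
  /-- the functional -/
  L : (X → ℝ) →ₗ[ℝ] ℝ
  one : L (fun _ => 1) = 1
  nonneg : ∀ f : X → ℝ, Bd f → (∀ x, 0 ≤ f x) → 0 ≤ L f

/-- Invariance under translations. -/
def Mn.Inv (m : Mn ℤ) : Prop := ∀ f : ℤ → ℝ, Bd f → m.L (fun x => f (x + 1)) = m.L f

/-- The complex linear extension of a mean to complex functions. -/
noncomputable def Mn.C {X : Type*} (m : Mn X) : (X → ℂ) →ₗ[ℂ] ℂ where
  toFun f := (m.L (fun x => (f x).re) : ℂ) + (m.L (fun x => (f x).im) : ℂ) * Complex.I
  map_add' f g := by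
    have h1 : (fun x => ((f + g) x).re) = (fun x => (f x).re) + fun x => (g x).re := by
      ext x; simp
    have h2 : (fun x => ((f + g) x).im) = (fun x => (f x).im) + fun x => (g x).im := by
      ext x; simp
    rw [h1, h2, map_add, map_add]
    push_cast
    ring
  map_smul' c f := by
    have h1 : (fun x => ((c • f) x).re) = c.re • (fun x => (f x).re) - c.im • fun x => (f x).im := by
      ext x; simp
    have h2 : (fun x => ((c • f) x).im) = c.re • (fun x => (f x).im) + c.im • fun x => (f x).re := by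
      ext x; simp
    rw [h1, h2, map_sub, map_add, map_smul, map_smul, map_smul, map_smul]
    simp only [smul_eq_mul, RingHom.id_apply]
    push_cast
    apply Complex.ext <;> simp

/-- The mean on a product: first (innermost) the mean `m'` over the second variable. -/
noncomputable def Mn.prod {X Y : Type*} (m : Mn X) (m' : Mn Y) : Mn (X × Y) where
  L :=
    { toFun := fun F => m.L (fun x => m'.L (fun y => F (x, y)))
      map_add' := fun F G => by
        have h1 : (fun x => m'.L (fun y => (F + G) (x, y))) =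
            (fun x => m'.L (fun y => F (x, y))) + fun x => m'.L (fun y => G (x, y)) := by
          ext x
          have : (fun y => (F + G) (x, y)) = (fun y => F (x, y)) + fun y => G (x, y) := by
            ext y; simp
          rw [this, map_add]; simp
        rw [h1, map_add]
      map_smul' := fun c F => by
        have h1 : (fun x => m'.L (fun y => (c • F) (x, y))) =
            c • (fun x => m'.L (fun y => F (x, y))) := by
          ext x
          have : (fun y => (c • F) (x, y)) = c • (fun y => F (x, y)) := by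
            ext y; simp
          rw [this, map_smul]; simp
        rw [h1, map_smul]; simp }
  one := by
    simp only [LinearMap.coe_mk, AddHom.coe_mk]
    rw [show (fun _ : X => m'.L (fun _ : Y => (1:ℝ))) = fun _ => 1 from by ext x; exact m'.one]
    exact m.one
  nonneg := fun F hF h0 => by
    obtain ⟨B, hB⟩ := hF
    simp only [LinearMap.coe_mk, AddHom.coe_mk]
    have hup : ∀ x, m'.L (fun y => F (x, y)) ≤ B := fun x => by
      have h := m'.nonneg (fun y => B - F (x, y)) ((Bd.const B).sub (Bd.of_le B fun y => hB (x, y)))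
        (fun y => by
          have := hB (x, y)
          rw [Real.norm_eq_abs, abs_le] at this
          linarith)
      have e : (fun y => B - F (x, y)) = B • (fun _ : Y => (1:ℝ)) - fun y => F (x, y) := by
        ext y; simp
      rw [e, map_sub, map_smul, m'.one] at h
      simp only [smul_eq_mul, mul_one] at h
      linarith
    have hlo : ∀ x, 0 ≤ m'.L (fun y => F (x, y)) := fun x =>
      m'.nonneg _ (Bd.of_le B fun y => hB (x, y)) (fun y => h0 (x, y))
    exact m.nonneg _ (Bd.of_mem_Icc fun x => ⟨hlo x, hup x⟩) hlo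

theorem Mn.prod_apply {X Y : Type*} (m : Mn X) (m' : Mn Y) (F : X × Y → ℝ) :
    (m.prod m').L F = m.L (fun x => m'.L (fun y => F (x, y))) := rfl

/-- The seminorm of `L²(m)`. -/
noncomputable def nrm {X E : Type*} [NormedAddCommGroup E] (m : Mn X) (f : X → E) : ℝ :=
  Real.sqrt (m.L (fun x => ‖f x‖ ^ 2))

/-! ### characters and twisted averages -/

/-- The character `v ↦ z ^ v` of the integers, with values in `ℂ`. -/
noncomputable def ch (z : Circle) (v : ℤ) : ℂ := ((z ^ v : Circle) : ℂ)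

section ch
variable (z w : Circle) (u v : ℤ)

@[simp] theorem norm_ch : ‖ch z v‖ = 1 := Circle.norm_coe _

@[simp] theorem ch_zero : ch z 0 = 1 := by simp [ch]

@[simp] theorem ch_one_left : ch 1 v = 1 := by simp [ch]

@[simp] theorem ch_one : ch z 1 = (z : ℂ) := by simp [ch]

theorem ch_add : ch z (u + v) = ch z u * ch z v := by simp [ch, zpow_add]

theorem ch_sub : ch z (u - v) = ch z u * ch z (-v) := by rw [sub_eq_add_neg, ch_add]

theorem ch_mul : ch (z * w) v = ch z v * ch w v := by simp [ch, mul_zpow]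

theorem ch_zpow : ch (z ^ u) v = ch z (u * v) := by simp [ch, zpow_mul]

theorem ch_inv : ch z⁻¹ v = ch z (-v) := by simp [ch]

theorem ch_neg : ch z (-v) = conj (ch z v) := by
  rw [ch, zpow_neg, Circle.coe_inv_eq_conj, ch]

theorem ch_mul_neg : ch z v * ch z (-v) = 1 := by rw [← ch_add]; simp

theorem ch_ne_zero : ch z v ≠ 0 := by
  intro h
  have := norm_ch z v
  rw [h] at this
  simp at this

theorem ch_eq : ch z v = (z : ℂ) ^ v := by simp [ch]

end ch

/-- The twisted average `(1/N) ∑_{s < N} z ^ (-s) f (x + s)`. -/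
noncomputable def tav (z : Circle) (N : ℕ) (f : ℤ → ℂ) (x : ℤ) : ℂ :=
  (N : ℂ)⁻¹ * ∑ s ∈ Finset.range N, ch z (-(s : ℤ)) * f (x + s)

/-- `U` is uniform: all its twisted averages of length `N` are small in `L²(m)`. -/
def Uni (m : Mn ℤ) (N : ℕ) (η : ℝ) (U : ℤ → ℂ) : Prop := ∀ z : Circle, nrm m (tav z N U) ≤ η

/-- `E` is an approximate eigenfunction: `E (x + v)` is close to `z ^ v E x` in `L²(m)`, uniformly
in `v`. -/
def Eig (m : Mn ℤ) (z : Circle) (τ : ℝ) (E : ℤ → ℂ) : Prop :=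
  ∀ v : ℤ, nrm m (fun x => E (x + v) - ch z v * E x) ≤ τ

/-! ### kernels -/

/-- A kernel `k s = ∑ c z z ^ s` with finitely many frequencies `z ∈ Z`, weights `0 ≤ c z ≤ 1`,
symmetric, nonnegative on the integers; all `M`-th roots of unity have weight `1` and these are the
only frequencies of finite order. -/
structure Ker where
  /-- frequencies -/
  Z : Finset Circle
  /-- weights -/
  c : Circle → ℝ
  /-- modulus -/
  M : ℕ
  M_pos : 0 < M
  nonneg : ∀ z, 0 ≤ c z
  supp : ∀ z, z ∉ Z → c z = 0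
  one : ∀ z, z ^ M = 1 → z ∈ Z ∧ c z = 1
  le_one : ∀ z, c z ≤ 1
  symm : ∀ z, c z⁻¹ = c z
  pos : ∀ s : ℤ, 0 ≤ (∑ z ∈ Z, (c z : ℂ) * ch z s).re
  tors : ∀ z ∈ Z, IsOfFinOrder z → z ^ M = 1

/-- The almost periodic approximant `(1/N) ∑_{s < N} k s f (x + s)` of `f`. -/
noncomputable def Ker.app (K : Ker) (N : ℕ) (f : ℤ → ℝ) (x : ℤ) : ℝ :=
  (∑ z ∈ K.Z, (K.c z : ℂ) * tav z N (fun y => (f y : ℂ)) x).re

/-- The local density of `f` in residue classes modulo `M`. -/
noncomputable def dn (M N : ℕ) (f : ℤ → ℝ) (x : ℤ) : ℝ :=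
  (N : ℝ)⁻¹ * ∑ s ∈ Finset.range N, f (x + (M : ℤ) * s)

/-! ### structured functions -/

/-- `F` has values in `[0, 2]` and is a combination with coefficients `c z ≥ 0` (`z ∈ Z`) of
approximate eigenfunctions `E z`, bounded by one. -/
structure Str (m : Mn ℤ) (F : ℤ → ℝ) (Z : Finset Circle) (c : Circle → ℝ) (E : Circle → ℤ → ℂ)
    (τ : ℝ) : Prop where
  nonneg : ∀ z, 0 ≤ c z
  le_one : ∀ z ∈ Z, ∀ x, ‖E z x‖ ≤ 1
  eig : ∀ z ∈ Z, Eig m z τ (E z)
  eq : ∀ x, (F x : ℂ) = ∑ z ∈ Z, (c z : ℂ) * E z x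
  rng : ∀ x, 0 ≤ F x ∧ F x ≤ 2

/-- Fine approximants: for every `η` there are frequencies and weights such that for every `τ'`
there is a structured function `F` with these frequencies and weights and precision `τ'`, which is
`τ`-close to `h` in `L²(m)` and such that `f - F` is `η`-uniform. -/
def FA (m : Mn ℤ) (f h : ℤ → ℝ) (τ : ℝ) : Prop :=
  ∀ η : ℝ, 0 < η → ∃ (Z : Finset Circle) (c : Circle → ℝ), ∀ τ' : ℝ, 0 < τ' →
    ∃ (E : Circle → ℤ → ℂ) (F : ℤ → ℝ) (N : ℕ), 0 < N ∧ Str m F Z c E τ' ∧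
      nrm m (fun x => F x - h x) ≤ τ ∧ Uni m N η (fun x => ((f x - F x : ℝ) : ℂ))

/-- The number of `j < p` such that `F` is at least `θ` both at `y + j t` and at `y + (j - p) t`. -/
noncomputable def cnt (p : ℕ) (t : ℤ) (θ : ℝ) (F : ℤ → ℝ) (y : ℤ) : ℕ :=
  by classical exact
  ((Finset.range p).filter (fun j : ℕ => θ ≤ F (y + j * t) ∧ θ ≤ F (y + ((j : ℤ) - p) * t))).card

/-- The data used for one level: `h` is the coarse almost periodic approximant, `d` the local
density in residue classes modulo `M`. -/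
structure Pack (m : Mn ℤ) (f h d : ℤ → ℝ) (M p : ℕ) (t : ℤ) (τ θ : ℝ) : Prop where
  h_rng : ∀ x, 0 ≤ h x ∧ h x ≤ 2
  d_rng : ∀ x, 0 ≤ d x ∧ d x ≤ 1
  d_mean : m.L d = m.L f
  d_shift : ∀ k : ℤ, (M : ℤ) ∣ k → nrm m (fun x => d (x + k) - d x) ≤ τ
  fa : FA m f h τ
  low : ∀ y : ℤ, (d y - 4 * θ) * p ≤ cnt p t (2 * θ) h y

/-! ### trigonometric approximation in two variables and in one variable -/

/-- `W` is `κ`-close to a finite sum of products of characters. -/
def Trig2 (κ : ℝ) (W : ℤ → ℤ → ℝ) : Prop :=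
  ∃ (n : ℕ) (r : Fin n → ℂ) (z w : Fin n → Circle), ∀ u v : ℤ,
    ‖(W u v : ℂ) - ∑ i, r i * ch (z i) u * ch (w i) v‖ ≤ κ

/-- `Q` is `κ`-close to a finite sum of characters. -/
def Trig1 (κ : ℝ) (Q : ℤ → ℝ) : Prop :=
  ∃ (n : ℕ) (r : Fin n → ℂ) (w : Fin n → Circle), ∀ v : ℤ,
    ‖(Q v : ℂ) - ∑ i, r i * ch (w i) v‖ ≤ κ

/-- The indicator function of the nonzero integers `v` with `|v| ∉ D`. -/
noncomputable def CI (D : Set ℕ) (v : ℤ) : ℝ := by
  classical exact if v ≠ 0 ∧ v.natAbs ∉ D then 1 else 0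

/-- The nested mean of the product of the six functions attached to the edges of a `K_4`. -/
noncomputable def T3 (m₁ m₂ m₃ : Mn ℤ) (ρ ρ' : ℤ) (σ σ' : ℕ) (H G₀ G₁ F₀ F₁ F₂ : ℤ → ℝ) : ℝ :=
  m₃.L (fun v => H v * m₂.L (fun u => G₀ u * G₁ (u - (ρ' + σ' * v)) *
    m₁.L (fun x => F₀ x * F₁ (x - (ρ + σ * u)) * F₂ (x - σ * (ρ' + σ' * v)))))

/-- `F` is at least `ε / 32` on more than half of the (periodic) progression `y + j t`, `j < p`. -/
def Gd (p : ℕ) (t : ℤ) (ε : ℝ) (F : ℤ → ℝ) (y : ℤ) : Prop :=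
  (1 / 2 + ε / 4) * p ≤ (cnt p t (ε / 32) F y : ℝ)

end Pool.Agent.HOM
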